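import Pool.Agent.helper36.MP.SpecP

/-!
# MP_af9036_an: LR, roots on convex open sets
-/

set_option autoImplicit false

open Complex Metric Set Filter Topology MeasureTheory

noncomputable section

namespace MPS

/-- A continuous root of a nonvanishing holomorphic function is holomorphic. -/
theorem LR_diff (n : ℕ) (Ω : Set ℂ) (F f : ℂ → ℂ) (hn : 1 ≤ n) (hΩ : IsOpen Ω)
    (hF : DifferentiableOn ℂ F Ω) (hF0 : ∀ w ∈ Ω, F w ≠ 0) (hfc : ContinuousOn f Ω)
    (hf : ∀ w ∈ Ω, f w ^ n = F w) : DifferentiableOn ℂ f Ω := by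
  intro w hw
  have hn0 : n ≠ 0 := by omega
  have hfw : f w ≠ 0 := by
    intro h0
    have h1 := hf w hw
    rw [h0, zero_pow hn0] at h1
    exact hF0 w hw h1.symm
  have hs : HasStrictDerivAt (fun z : ℂ => z ^ n) ((n : ℂ) * f w ^ (n - 1)) (f w) :=
    hasStrictDerivAt_pow n (f w)
  have hd0 : (n : ℂ) * f w ^ (n - 1) ≠ 0 :=
    mul_ne_zero (Nat.cast_ne_zero.mpr hn0) (pow_ne_zero _ hfw)
  have hl := hs.to_localInverse hd0
  have he := hs.eventually_left_inverse hd0
  have hcw : ContinuousAt f w := hfc.continuousAt (hΩ.mem_nhds hw)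
  have he2 : ∀ᶠ z in 𝓝 w, hs.localInverse (fun z : ℂ => z ^ n) ((n : ℂ) * f w ^ (n - 1)) (f w) hd0
      (F z) = f z := by
    filter_upwards [hcw.eventually he, hΩ.mem_nhds hw] with z hz hzΩ
    rw [← hf z hzΩ]
    exact hz
  have hFw : DifferentiableAt ℂ F w := hF.differentiableAt (hΩ.mem_nhds hw)
  have hl2 : HasDerivAt (hs.localInverse (fun z : ℂ => z ^ n) ((n : ℂ) * f w ^ (n - 1)) (f w) hd0)
      ((n : ℂ) * f w ^ (n - 1))⁻¹ (F w) := by
    have h3 := hl.hasDerivAt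
    simp only [hf w hw] at h3
    exact h3
  have h4 := hl2.comp w hFw.hasDerivAt
  exact (h4.congr_of_eventuallyEq (by
    filter_upwards [he2] with z hz
    exact hz.symm)).differentiableAt.differentiableWithinAt

/-- LR. -/
theorem LR : LR_stmt := by
  intro n Ω F w₀ v hn hΩ hc hF hF0 hw₀ hv
  haveI := hc.contractibleSpace ⟨w₀, hw₀⟩
  have hs : IsSimplyConnected Ω := (inferInstance : SimplyConnectedSpace Ω)
  have hn0 : n ≠ 0 := by omega
  obtain ⟨f, hfc, hf⟩ := Complex.exists_continuousOn_pow_eq hs hΩ hF.continuousOn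
    (by rintro ⟨w, hw, h0⟩; exact hF0 w hw h0) hn0
  have hfd := LR_diff n Ω F f hn hΩ hF hF0 hfc (fun w _ => hf w)
  have hf0 : f w₀ ≠ 0 := by
    intro h0
    have h1 := hf w₀
    rw [h0, zero_pow hn0] at h1
    exact hF0 w₀ hw₀ h1.symm
  refine ⟨fun w => v / f w₀ * f w, hfd.const_mul _, div_mul_cancel₀ v hf0, fun w hw => ?_⟩
  simp only
  rw [mul_pow, div_pow, hf w₀, hf w, hv, div_self (hF0 w₀ hw₀), one_mul]

end MPS
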