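import Pool.Agent.helper36.MP.SpecC

/-!
# MP_af9036_an: ARC, the pigeonhole argument
-/

set_option autoImplicit false

open Complex Metric Set Filter Topology MeasureTheory

noncomputable section

namespace MPS

/-- Two good points with the same reduction are impossible. -/
theorem ARC_aux (y₀ θ d₀ : ℝ) (hd : 0 < d₀)
    (hj : ∀ j ∈ Finset.Icc (1 : ℕ) 5, d₀ ≤ ‖Complex.exp ((j : ℂ) * θ * I) - 1‖)
    (f : ℕ → ℝ) (hf : ∀ a ∈ Finset.range 6, |f a - (y₀ + a * θ)| ≤ min d₀ 1 / 10)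
    (a b : ℕ) (ha : a ∈ Finset.range 6) (hab : b < a) (m : ℤ)
    (h : f a - f b = m * (2 * Real.pi)) : False := by
  have ha6 := Finset.mem_range.mp ha
  have hb : b ∈ Finset.range 6 := Finset.mem_range.mpr (by omega)
  have h1 := hj (a - b) (Finset.mem_Icc.mpr ⟨by omega, by omega⟩)
  have hcast : ((a - b : ℕ) : ℝ) = (a : ℝ) - b := by
    rw [Nat.cast_sub hab.le]
  set x : ℝ := (f b - (y₀ + b * θ)) - (f a - (y₀ + a * θ)) with hx
  have h2 : ((a - b : ℕ) : ℝ) * θ = x + m * (2 * Real.pi) := by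
    rw [hcast, hx]
    linear_combination h
  have h3 : Complex.exp (((a - b : ℕ) : ℂ) * θ * I) = Complex.exp (I * x) := by
    have h4 : ((a - b : ℕ) : ℂ) * θ = (x : ℂ) + m * (2 * Real.pi) := by
      exact_mod_cast congrArg (fun r : ℝ => (r : ℂ)) h2
    rw [h4, show ((x : ℂ) + m * (2 * Real.pi)) * I = I * x + m * (2 * Real.pi * I) by ring,
      Complex.exp_periodic.int_mul m]
  rw [h3] at h1
  have h5 : ‖Complex.exp (I * (x : ℂ)) - 1‖ ≤ ‖x‖ := Real.norm_exp_I_mul_ofReal_sub_one_le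
  have h6 : ‖x‖ ≤ min d₀ 1 / 10 + min d₀ 1 / 10 := by
    rw [Real.norm_eq_abs, hx]
    exact (abs_sub _ _).trans (add_le_add (hf b hb) (hf a ha))
  have h7 : min d₀ 1 ≤ d₀ := min_le_left _ _
  linarith

/-- ARC. -/
theorem ARC : ARC_stmt := by
  intro S y₀ θ d₀ hd hS hy₀ hF hj
  by_contra hcon
  push Not at hcon
  have hex : ∀ a : ℕ, ∃ y : ℝ, a ∈ Finset.range 6 → |y - (y₀ + a * θ)| ≤ min d₀ 1 / 10 ∧ y ∈ S := by
    intro a
    rcases Nat.eq_zero_or_pos a with rfl | ha
    · refine ⟨y₀, fun _ => ⟨?_, hy₀⟩⟩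
      have : 0 < min d₀ 1 := lt_min hd one_pos
      simp only [Nat.cast_zero, zero_mul, add_zero, sub_self, abs_zero]
      positivity
    · by_cases ha6 : a ∈ Finset.range 6
      · obtain ⟨y, hy1, hy2⟩ := hcon a (Finset.mem_Icc.mpr ⟨ha, by
          have := Finset.mem_range.mp ha6
          omega⟩)
        exact ⟨y, fun _ => ⟨hy1, hy2⟩⟩
      · exact ⟨0, fun h => absurd h ha6⟩
  choose f hf using hex
  have hpi : (0 : ℝ) < 2 * Real.pi := by positivity
  let r : ℕ → ℝ := fun a => toIcoMod hpi 0 (f a)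
  have hr : ∀ a, r a = f a + ((-toIcoDiv hpi 0 (f a) : ℤ) : ℝ) * (2 * Real.pi) := by
    intro a
    simp only [r, toIcoMod, zsmul_eq_mul]
    push_cast
    ring
  have hinj : Set.InjOn r (Finset.range 6 : Set ℕ) := by
    have key : ∀ a b : ℕ, a ∈ Finset.range 6 → b < a → r a ≠ r b := by
      intro a b ha hab h
      rw [hr, hr] at h
      refine ARC_aux y₀ θ d₀ hd hj f (fun c hc => (hf c hc).1) a b ha hab
        (toIcoDiv hpi 0 (f a) - toIcoDiv hpi 0 (f b)) ?_
      push_cast at h ⊢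
      linear_combination h
    intro a ha b hb h
    rcases lt_trichotomy a b with hlt | heq | hgt
    · exact absurd h.symm (key b a hb hlt)
    · exact heq
    · exact absurd h (key a b ha hgt)
  have hcard : ((Finset.range 6).image r).card = 6 := by
    rw [Finset.card_image_of_injOn hinj, Finset.card_range]
  have := hF ((Finset.range 6).image r) (by
    intro y hy
    obtain ⟨a, ha, rfl⟩ := Finset.mem_image.mp hy
    have h1 := toIcoMod_mem_Ico hpi 0 (f a)
    rw [zero_add] at h1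
    refine ⟨h1.1, h1.2, ?_⟩
    rw [hr]
    exact hS _ (hf a ha).2 _)
  omega

end MPS
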