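import Pool.Agent.helper36.MP.SpecN

/-!
# MP_af9036_an: NH, elementary facts on natural maps at a pole
-/

set_option autoImplicit false

open Complex Metric Set Filter Topology MeasureTheory
open scoped ContDiff

noncomputable section

namespace MPS

/-- An analytic function with `κ 0 = 0`, `κ' 0 = 1` and `κ u ^ 2 = (u κ' u) ^ 2` is the identity. -/
theorem NH_id (κ : ℂ → ℂ) (hκ : AnalyticAt ℂ κ 0) (h0 : κ 0 = 0) (h1 : deriv κ 0 = 1)
    (h2 : ∀ᶠ u in 𝓝 (0 : ℂ), u ≠ 0 → κ u ^ 2 = (u * deriv κ u) ^ 2) :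
    ∀ᶠ u in 𝓝 (0 : ℂ), κ u = u := by
  have hq : ContinuousAt (dslope κ 0) 0 := by
    rw [continuousAt_dslope_same]
    exact hκ.differentiableAt
  have hq0 : dslope κ 0 0 = 1 := by rw [dslope_same, h1]
  have hqu : ∀ u : ℂ, u * dslope κ 0 u = κ u := by
    intro u
    have := sub_smul_dslope κ 0 u
    rw [sub_zero, smul_eq_mul, h0, sub_zero] at this
    exact this
  have hd : ContinuousAt (deriv κ) 0 := hκ.deriv.continuousAt
  have hsum : ∀ᶠ u in 𝓝 (0 : ℂ), deriv κ u + dslope κ 0 u ≠ 0 := by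
    have h3 : ContinuousAt (fun u => deriv κ u + dslope κ 0 u) 0 := hd.add hq
    refine h3.eventually_ne ?_
    rw [h1, hq0]
    norm_num
  have h3 : ∀ᶠ u in 𝓝 (0 : ℂ), u * deriv κ u = κ u := by
    filter_upwards [h2, hsum] with u hu hs
    rcases eq_or_ne u 0 with rfl | hu0
    · rw [zero_mul, h0]
    · have h4 := hu hu0
      rw [← hqu u] at h4 ⊢
      have h5 : u ^ 2 * ((deriv κ u - dslope κ 0 u) * (deriv κ u + dslope κ 0 u)) = 0 := by
        linear_combination -h4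
      rcases mul_eq_zero.mp h5 with h6 | h6
      · exact absurd h6 (pow_ne_zero 2 hu0)
      · rcases mul_eq_zero.mp h6 with h7 | h7
        · rw [sub_eq_zero.mp h7]
        · exact absurd h7 hs
  have h4 : ∀ᶠ u in 𝓝 (0 : ℂ), u * deriv (deriv κ) u = 0 := by
    filter_upwards [h3.eventually_nhds, hκ.deriv.eventually_analyticAt] with u hu han
    have h5 : deriv (fun v => v * deriv κ v) u = deriv κ u := Filter.EventuallyEq.deriv_eq hu
    have h6 : HasDerivAt (fun v => v * deriv κ v) (1 * deriv κ u + u * deriv (deriv κ) u) u :=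
      (hasDerivAt_id u).mul han.differentiableAt.hasDerivAt
    rw [h6.deriv] at h5
    linear_combination h5
  have h5 : ∀ᶠ u in 𝓝 (0 : ℂ), deriv (deriv κ) u = 0 := by
    rcases hκ.deriv.deriv.eventually_eq_zero_or_eventually_ne_zero with h6 | h6
    · exact h6
    · exfalso
      have h7 : ∀ᶠ u in 𝓝[≠] (0 : ℂ), False := by
        filter_upwards [h6, h4.filter_mono nhdsWithin_le_nhds, self_mem_nhdsWithin] with u hu hu' hu0
        rcases mul_eq_zero.mp hu' with h8 | h8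
        · exact hu0 h8
        · exact hu h8
      exact (NeBot.ne' (f := 𝓝[≠] (0 : ℂ))) (Filter.eventually_false_iff_eq_bot.mp h7)
  obtain ⟨δ, hδ, hball⟩ := Metric.eventually_nhds_iff_ball.mp
    (h5.and (hκ.deriv.eventually_analyticAt.and h3))
  filter_upwards [ball_mem_nhds (0 : ℂ) hδ] with u hu
  have h6 : deriv κ u = deriv κ 0 :=
    isOpen_ball.is_const_of_deriv_eq_zero (convex_ball (0 : ℂ) δ).isPreconnected
      (fun v hv => ((hball v hv).2.1).differentiableAt.differentiableWithinAt)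
      (fun v hv => (hball v hv).1) hu (mem_ball_self hδ)
  have h7 := (hball u hu).2.2
  rw [← h7, h6, h1, mul_one]

/-- Uniqueness near the pole. -/
theorem NH_near {k : ℕ} [NeZero k] {b g : ZMod k → ℂ} {i : ZMod k} {ψ₁ ψ₂ : ℂ → ℂ} {r₁ r₂ : ℝ}
    (h1 : PN b g i ψ₁ r₁) (h2 : PN b g i ψ₂ r₂) (hd : deriv ψ₁ 0 = deriv ψ₂ 0) :
    ∀ᶠ u in 𝓝 (0 : ℂ), ψ₁ u = ψ₂ u := by
  have hA1 : AnalyticAt ℂ ψ₁ 0 := h1.diff.analyticAt (ball_mem_nhds 0 h1.pos)
  have hA2 : AnalyticAt ℂ ψ₂ 0 := h2.diff.analyticAt (ball_mem_nhds 0 h2.pos)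
  have ha : deriv ψ₂ 0 ≠ 0 := h2.der
  let e : ℂ ≃L[ℂ] ℂ := ContinuousLinearEquiv.unitsEquivAut ℂ (Units.mk0 (deriv ψ₂ 0) ha)
  have hf' : HasFDerivAt ψ₂ (e : ℂ →L[ℂ] ℂ) 0 := by
    have := (hA2.differentiableAt.hasDerivAt).hasFDerivAt_equiv ha
    exact this
  have hcd : ContDiffAt ℂ ω ψ₂ 0 := hA2.contDiffAt
  have hs : HasStrictFDerivAt ψ₂ (e : ℂ →L[ℂ] ℂ) 0 := hcd.hasStrictFDerivAt' hf' (by simp)
  have hinvc : ContDiffAt ℂ ω (hs.localInverse ψ₂ e 0) (ψ₂ 0) := hcd.to_localInverse hf' (by simp)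
  have hinva : AnalyticAt ℂ (hs.localInverse ψ₂ e 0) (ψ₂ 0) := hinvc.analyticAt
  have hri : ∀ᶠ y in 𝓝 (ψ₂ 0), ψ₂ (hs.localInverse ψ₂ e 0 y) = y := hs.eventually_right_inverse
  have hin0 : hs.localInverse ψ₂ e 0 (ψ₂ 0) = 0 := hs.localInverse_apply_image
  generalize hs.localInverse ψ₂ e 0 = inv at hinva hri hin0
  have h00 : ψ₁ 0 = ψ₂ 0 := by rw [h1.val, h2.val]
  set κ : ℂ → ℂ := fun u => inv (ψ₁ u) with hκdef
  have hκ : AnalyticAt ℂ κ 0 := by
    have : AnalyticAt ℂ inv (ψ₁ 0) := by rw [h00]; exact hinva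
    exact this.comp hA1
  have hκ0 : κ 0 = 0 := by rw [hκdef]; simp only; rw [h00, hin0]
  have hcomp : ∀ᶠ u in 𝓝 (0 : ℂ), ψ₂ (κ u) = ψ₁ u := by
    have hc : Tendsto ψ₁ (𝓝 0) (𝓝 (ψ₂ 0)) := by
      rw [← h00]; exact hA1.continuousAt
    exact hc.eventually hri
  have hchain : ∀ᶠ u in 𝓝 (0 : ℂ), deriv ψ₁ u = deriv ψ₂ (κ u) * deriv κ u := by
    have hA2' : ∀ᶠ u in 𝓝 (0 : ℂ), AnalyticAt ℂ ψ₂ (κ u) := by
      have hc : Tendsto κ (𝓝 0) (𝓝 0) := by
        have := hκ.continuousAt.tendsto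
        rw [hκ0] at this
        exact this
      exact hc.eventually hA2.eventually_analyticAt
    filter_upwards [hcomp.eventually_nhds, hA2', hκ.eventually_analyticAt] with u hu hu2 hu3
    have h3 : deriv (fun v => ψ₂ (κ v)) u = deriv ψ₁ u := Filter.EventuallyEq.deriv_eq hu
    rw [← h3]
    exact (hu2.differentiableAt.hasDerivAt.comp u hu3.differentiableAt.hasDerivAt).deriv
  have hκ1 : deriv κ 0 = 1 := by
    have h3 := hchain.self_of_nhds
    rw [hκ0, hd] at h3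
    have h4 : deriv ψ₂ 0 * (deriv κ 0 - 1) = 0 := by linear_combination -h3
    rcases mul_eq_zero.mp h4 with h5 | h5
    · exact absurd h5 ha
    · exact sub_eq_zero.mp h5
  have hid : ∀ᶠ u in 𝓝 (0 : ℂ), κ u = u := by
    refine NH_id κ hκ hκ0 hκ1 ?_
    have hb1 : ∀ᶠ u in 𝓝 (0 : ℂ), u ∈ ball (0 : ℂ) r₁ := ball_mem_nhds 0 h1.pos
    have hb2 : ∀ᶠ u in 𝓝 (0 : ℂ), κ u ∈ ball (0 : ℂ) r₂ := by
      have hc : Tendsto κ (𝓝 0) (𝓝 0) := by
        have := hκ.continuousAt.tendsto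
        rw [hκ0] at this
        exact this
      exact hc.eventually (ball_mem_nhds 0 h2.pos)
    filter_upwards [hb1, hb2, hcomp, hchain] with u hu1 hu2 hu3 hu4 hu0
    have hκu : κ u ≠ 0 := by
      intro h3
      rw [h3, h2.val] at hu3
      exact h1.av u hu1 hu0 i hu3.symm
    have e1 := h1.eq u hu1 hu0
    have e2 := h2.eq (κ u) hu2 hκu
    rw [hu3] at e2
    rw [hu4] at e1
    have hX : deriv ψ₂ (κ u) ^ 2 * BB b g (ψ₁ u) ≠ 0 := by
      intro h3
      have : κ u ^ 2 * (deriv ψ₂ (κ u) ^ 2 * BB b g (ψ₁ u)) = 1 := by rw [← e2]; ring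
      rw [h3, mul_zero] at this
      exact zero_ne_one this
    refine mul_right_cancel₀ hX ?_
    linear_combination e2 - e1
  filter_upwards [hcomp, hid] with u hu1 hu2
  rw [← hu1, hu2]

/-- NH. -/
theorem NH : NH_stmt := by
  intro k _ b g i ψ r h
  refine ⟨⟨?_, ?_, ?_⟩, ?_, ?_, ?_⟩
  · -- differentiability
    refine h.diff.comp Complex.differentiable_exp.differentiableOn ?_
    intro w hw
    rw [mem_ball_zero_iff, Complex.norm_exp]
    rw [Set.mem_ofPred_eq] at hw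
    calc Real.exp w.re < Real.exp (Real.log r) := Real.exp_lt_exp.mpr hw
      _ = r := Real.exp_log h.pos
  · intro w hw j
    refine h.av _ ?_ (Complex.exp_ne_zero w) j
    rw [mem_ball_zero_iff, Complex.norm_exp]
    rw [Set.mem_ofPred_eq] at hw
    calc Real.exp w.re < Real.exp (Real.log r) := Real.exp_lt_exp.mpr hw
      _ = r := Real.exp_log h.pos
  · intro w hw
    have hb : Complex.exp w ∈ ball (0 : ℂ) r := by
      rw [mem_ball_zero_iff, Complex.norm_exp]
      rw [Set.mem_ofPred_eq] at hw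
      calc Real.exp w.re < Real.exp (Real.log r) := Real.exp_lt_exp.mpr hw
        _ = r := Real.exp_log h.pos
    have h1 : HasDerivAt (hat ψ) (deriv ψ (Complex.exp w) * Complex.exp w) w := by
      have h2 : HasDerivAt ψ (deriv ψ (Complex.exp w)) (Complex.exp w) :=
        (h.diff.differentiableAt (isOpen_ball.mem_nhds hb)).hasDerivAt
      exact h2.comp w (Complex.hasDerivAt_exp w)
    rw [h1.deriv]
    have h3 := h.eq _ hb (Complex.exp_ne_zero w)
    unfold hat
    rw [← h3]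
    ring
  · -- scaling
    intro l hl
    have hl0 : 0 < ‖l‖ := norm_pos_iff.mpr hl
    have hmem : ∀ u ∈ ball (0 : ℂ) (r / ‖l‖), l * u ∈ ball (0 : ℂ) r := by
      intro u hu
      rw [mem_ball_zero_iff] at hu ⊢
      rw [norm_mul]
      have := (lt_div_iff₀ hl0).mp hu
      linarith [mul_comm ‖l‖ ‖u‖]
    refine ⟨div_pos h.pos hl0, ?_, ?_, ?_, ?_, ?_⟩
    · exact h.diff.comp (by fun_prop) hmem
    · simp only [mul_zero]
      exact h.val
    · rw [deriv_comp_mul_left, mul_zero, smul_eq_mul]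
      exact mul_ne_zero hl h.der
    · intro u hu hu0 j
      exact h.av _ (hmem u hu) (mul_ne_zero hl hu0) j
    · intro u hu hu0
      rw [deriv_comp_mul_left, smul_eq_mul]
      rw [← h.eq _ (hmem u hu) (mul_ne_zero hl hu0)]
      ring
  · -- uniqueness
    intro ψ₂ r₂ h2 hd
    have hn := NH_near h h2 hd
    have ha1 : AnalyticOnNhd ℂ ψ (ball 0 (min r r₂)) :=
      (h.diff.mono (ball_subset_ball (min_le_left _ _))).analyticOnNhd isOpen_ball
    have ha2 : AnalyticOnNhd ℂ ψ₂ (ball 0 (min r r₂)) :=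
      (h2.diff.mono (ball_subset_ball (min_le_right _ _))).analyticOnNhd isOpen_ball
    exact ha1.eqOn_of_preconnected_of_eventuallyEq ha2 (convex_ball _ _).isPreconnected
      (mem_ball_self (lt_min h.pos h2.pos)) hn
  · intro r' hr' hle
    exact ⟨hr', h.diff.mono (ball_subset_ball hle), h.val, h.der,
      fun u hu => h.av u (ball_subset_ball hle hu), fun u hu => h.eq u (ball_subset_ball hle hu)⟩

end MPS
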